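import Mathlib

/-!
The Helly number of line transversals to axis-parallel boxes in dimension `d` is exactly
`2^(d-1) (2d-1)`.

Upper bound (Santalo): lines of a fixed direction sign class with no vanishing velocity are
parametrised by inverse velocities, so that the lines meeting a box form a convex set in
dimension `2d-2`; Helly's theorem and a compactness argument finish.

Lower bound (new): for every sign vector `σ` with `σ_0 = +` there is a line `L_σ` and
`2d-1` boxes touched by `L_σ` near one point; the boxes attached to `σ` encode the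
cyclic chain `0 → 1 → ... → d-1 → 0`, which no line of direction class `σ` can satisfy,
while leaving out one box makes room for a small perturbation of `L_σ`.
The lines are constructed by induction on the dimension so that `L_τ` (`τ ≠ σ`) crosses the
interior of all the boxes attached to `σ`.
-/

open Filter Topology

namespace Pool.Agent.Results.MP_5f7e36_co.BoxLineHelly

/-- The combinatorial data behind the construction, for the coordinates `0, ..., n`. -/
def Good (n : ℕ) (ι : Type) (s X w : ι → ℕ → ℝ) : Prop :=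
  (∀ a i, s a i = 1 ∨ s a i = -1) ∧ (∀ a, s a 0 = 1) ∧
  (∀ v : ℕ → ℝ, 0 ≤ v 0 → ∃ a, ∀ i, i ≤ n → 0 ≤ s a i * v i) ∧
  (∀ a i, i ≤ n → 0 < w a i) ∧
  (∀ a b, a ≠ b → X a 0 ≠ X b 0) ∧
  (∀ a b, a ≠ b → ∀ i, i < n → s a i * s b i = s a (i+1) * s b (i+1) →
    w b i * (X a i - s a i * s b i * X b i)
      < w b (i+1) * (X a (i+1) - s a i * s b i * X b (i+1))) ∧
  (∀ a b, a ≠ b → s a n = s b n → w b n * (X a n - X b n) < w b 0 * (X a 0 - X b 0))

lemma ev_lt {f g : ℝ → ℝ} (hf : ContinuousAt f 0) (hg : ContinuousAt g 0) (h : f 0 < g 0) :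
    ∀ᶠ η in 𝓝[>] (0:ℝ), f η < g η :=
  (hf.eventually_lt hg h).filter_mono nhdsWithin_le_nhds

def sg (e : Bool) : ℝ := if e then 1 else -1

lemma sg_or (e : Bool) : sg e = 1 ∨ sg e = -1 := by cases e <;> simp [sg]

lemma sg_ne {e f : Bool} (h : e ≠ f) : sg e * sg f = -1 := by
  cases e <;> cases f <;> simp_all [sg]

lemma exists_good (n : ℕ) : ∃ (ι : Type) (_ : Fintype ι) (s X w : ι → ℕ → ℝ),
    Fintype.card ι = 2 ^ n ∧ Good n ι s X w := by
  induction n with
  | zero =>
    refine ⟨Unit, inferInstance, fun _ _ => 1, fun _ _ => 0, fun _ _ => 1, by simp, ?_⟩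
    refine ⟨by simp, by simp, ?_, by simp, ?_, ?_, ?_⟩
    · intro v hv
      refine ⟨(), fun i hi => ?_⟩
      obtain rfl : i = 0 := by omega
      simpa using hv
    · intro a b h; exact absurd (Subsingleton.elim a b) h
    · intro a b h; exact absurd (Subsingleton.elim a b) h
    · intro a b h; exact absurd (Subsingleton.elim a b) h
  | succ n ih =>
    obtain ⟨ι, hι, s, X, w, hcard, hs, h0, hc, hw, hX, he, hl⟩ := ih
    classical
    -- choose the shift constant
    have hC : ∃ C : ℝ, ∀ a b, w b n * (X a n + X b n) < w b 0 * (X a 0 + X b 0 + 2 * C) := by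
      have : ∀ᶠ C : ℝ in atTop, ∀ a b,
          w b n * (X a n + X b n) < w b 0 * (X a 0 + X b 0 + 2 * C) := by
        refine eventually_all.2 fun a => eventually_all.2 fun b => ?_
        have hwb := hw b 0 (Nat.zero_le _)
        have : Tendsto (fun C : ℝ => w b 0 * (X a 0 + X b 0 + 2 * C)) atTop atTop := by
          refine Tendsto.const_mul_atTop hwb ?_
          refine tendsto_atTop_add_const_left _ _ ?_
          exact Tendsto.const_mul_atTop (by norm_num) tendsto_id
        exact this.eventually_gt_atTop _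
      exact this.exists
    obtain ⟨C, hC⟩ := hC
    -- the new data
    let s' : ι × Bool → ℕ → ℝ := fun q i => if i ≤ n then s q.1 i else sg q.2
    let x : ℝ → ι × Bool → ℝ := fun η q => X q.1 0 + sg q.2 * η / w q.1 0
    let X' : ℝ → ι × Bool → ℕ → ℝ := fun η q i =>
      if i ≤ n then X q.1 i + sg q.2 * η / w q.1 i else x η q - η * (x η q) ^ 2 + C
    let w' : ℝ → ι × Bool → ℕ → ℝ := fun η q i =>
      if i ≤ n then w q.1 i * (1 - sg q.2 * η * (i + 1))
      else w q.1 0 * (1 - sg q.2 * η) / (1 - 2 * η * x η q)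
    have hxc : ∀ q, ContinuousAt (fun η => x η q) 0 := by
      intro q; simp only [x]; fun_prop
    have hX'c : ∀ q i, ContinuousAt (fun η => X' η q i) 0 := by
      intro q i
      by_cases hi : i ≤ n
      · simp only [X', hi, if_true]; fun_prop
      · simp only [X', hi, if_false]
        have := hxc q
        fun_prop
    have hw'c : ∀ q i, ContinuousAt (fun η => w' η q i) 0 := by
      intro q i
      by_cases hi : i ≤ n
      · simp only [w', hi, if_true]; fun_prop
      · simp only [w', hi, if_false]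
        have := hxc q
        refine ContinuousAt.div (by fun_prop) (by fun_prop) ?_
        simp
    have hX'0 : ∀ q i, i ≤ n → X' 0 q i = X q.1 i := by
      intro q i hi; simp [X', hi]
    have hw'0 : ∀ q i, i ≤ n → w' 0 q i = w q.1 i := by
      intro q i hi; simp [w', hi]
    have hX'n : ∀ q, X' 0 q (n+1) = X q.1 0 + C := by
      intro q; simp [X', x]
    have hw'n : ∀ q, w' 0 q (n+1) = w q.1 0 := by
      intro q; simp [w', x]
    -- positivity
    have ev1 : ∀ᶠ η in 𝓝[>] (0:ℝ), ∀ q, ∀ i ∈ Finset.range (n+2), 0 < w' η q i := by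
      refine eventually_all.2 fun q => ?_
      refine (Finset.eventually_all _).2 fun i hi => ?_
      refine ev_lt (f := fun _ => 0) continuousAt_const (hw'c q i) ?_
      rcases Nat.lt_or_ge n i with h | h
      · have : i = n + 1 := by have := Finset.mem_range.1 hi; omega
        subst this
        rw [hw'n]; exact hw _ _ (Nat.zero_le _)
      · rw [hw'0 q i h]; exact hw _ _ h
    -- denominators
    have ev2 : ∀ᶠ η in 𝓝[>] (0:ℝ), ∀ q, 0 < 1 - 2 * η * x η q := by
      refine eventually_all.2 fun q => ?_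
      refine ev_lt (f := fun _ => 0) continuousAt_const ?_ (by simp)
      have := hxc q
      fun_prop
    -- distinctness for different base points
    have ev3 : ∀ᶠ η in 𝓝[>] (0:ℝ), ∀ q r : ι × Bool, q.1 ≠ r.1 → x η q ≠ x η r := by
      refine eventually_all.2 fun q => eventually_all.2 fun r => ?_
      by_cases h : q.1 = r.1
      · simp [h]
      · have h1 := hX _ _ h
        rcases lt_or_gt_of_ne h1 with h2 | h2
        · filter_upwards [ev_lt (hxc q) (hxc r) (by simpa [x] using h2)] with η h3 _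
          exact h3.ne
        · filter_upwards [ev_lt (hxc r) (hxc q) (by simpa [x] using h2)] with η h3 _
          exact h3.ne'
    -- old edges, different base points
    have ev4 : ∀ᶠ η in 𝓝[>] (0:ℝ), ∀ q r : ι × Bool, ∀ i ∈ Finset.range n, q.1 ≠ r.1 →
        s q.1 i * s r.1 i = s q.1 (i+1) * s r.1 (i+1) →
        w' η r i * (X' η q i - s q.1 i * s r.1 i * X' η r i)
        < w' η r (i+1) * (X' η q (i+1) - s q.1 i * s r.1 i * X' η r (i+1)) := by
      refine eventually_all.2 fun q => eventually_all.2 fun r => ?_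
      refine (Finset.eventually_all _).2 fun i hi => ?_
      have hi' := Finset.mem_range.1 hi
      by_cases h : q.1 = r.1
      · simp [h]
      by_cases h5 : s q.1 i * s r.1 i = s q.1 (i+1) * s r.1 (i+1)
      · have c1 := hX'c q i
        have c2 := hX'c r i
        have c3 := hX'c q (i+1)
        have c4 := hX'c r (i+1)
        have c5 := hw'c r i
        have c6 := hw'c r (i+1)
        have h6 := he _ _ h i hi' h5
        have := ev_lt (f := fun η => w' η r i * (X' η q i - s q.1 i * s r.1 i * X' η r i))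
          (g := fun η => w' η r (i+1) * (X' η q (i+1) - s q.1 i * s r.1 i * X' η r (i+1)))
          (by fun_prop) (by fun_prop) (by
            simp only [hX'0 _ i hi'.le, hX'0 _ (i+1) hi', hw'0 _ i hi'.le, hw'0 _ (i+1) hi']
            exact h6)
        filter_upwards [this] with η h7 _ _
        exact h7
      · simp [h5]
    -- new edge, equal last signs
    have ev5 : ∀ᶠ η in 𝓝[>] (0:ℝ), ∀ q r : ι × Bool, q.1 ≠ r.1 → s q.1 n = s r.1 n →
        w' η r n * (X' η q n - X' η r n)
        < w' η r (n+1) * (X' η q (n+1) - X' η r (n+1)) := by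
      refine eventually_all.2 fun q => eventually_all.2 fun r => ?_
      by_cases h : q.1 = r.1
      · simp [h]
      by_cases h5 : s q.1 n = s r.1 n
      · have c1 := hX'c q n
        have c2 := hX'c r n
        have c3 := hX'c q (n+1)
        have c4 := hX'c r (n+1)
        have c5 := hw'c r n
        have c6 := hw'c r (n+1)
        have h6 := hl _ _ h h5
        have := ev_lt (f := fun η => w' η r n * (X' η q n - X' η r n))
          (g := fun η => w' η r (n+1) * (X' η q (n+1) - X' η r (n+1)))
          (by fun_prop) (by fun_prop) (by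
            simp only [hX'0 _ n le_rfl, hX'n, hw'0 _ n le_rfl, hw'n]
            have : X q.1 0 + C - (X r.1 0 + C) = X q.1 0 - X r.1 0 := by ring
            rw [this]; exact h6)
        filter_upwards [this] with η h7 _ _
        exact h7
      · simp [h5]
    -- new edge, opposite last signs
    have ev6 : ∀ᶠ η in 𝓝[>] (0:ℝ), ∀ q r : ι × Bool,
        w' η r n * (X' η q n + X' η r n)
        < w' η r (n+1) * (X' η q (n+1) + X' η r (n+1)) := by
      refine eventually_all.2 fun q => eventually_all.2 fun r => ?_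
      have c1 := hX'c q n
      have c2 := hX'c r n
      have c3 := hX'c q (n+1)
      have c4 := hX'c r (n+1)
      have c5 := hw'c r n
      have c6 := hw'c r (n+1)
      refine ev_lt (by fun_prop) (by fun_prop) ?_
      simp only [hX'0 _ n le_rfl, hX'n, hw'0 _ n le_rfl, hw'n]
      have := hC q.1 r.1
      have e : X q.1 0 + C + (X r.1 0 + C) = X q.1 0 + X r.1 0 + 2 * C := by ring
      rw [e]; exact this
    obtain ⟨η, hη, h1, h2, h3, h4, h5, h6⟩ :=
      (eventually_mem_nhdsWithin.and (ev1.and (ev2.and (ev3.and (ev4.and (ev5.and ev6)))))).exists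
    have hη0 : 0 < η := hη
    have hs1 : ∀ a i, s a i * s a i = 1 := by
      intro a i; rcases hs a i with h | h <;> simp [h]
    refine ⟨ι × Bool, inferInstance, s', X' η, w' η, ?_, ?_, ?_, ?_, ?_, ?_, ?_, ?_⟩
    · simp [hcard, pow_succ]
    · intro q i
      by_cases hi : i ≤ n
      · simp only [s', hi, if_true]; exact hs _ _
      · simp only [s', hi, if_false]; exact sg_or _
    · intro q; simp [s', h0]
    · intro v hv
      obtain ⟨a, ha⟩ := hc v hv
      refine ⟨(a, decide (0 ≤ v (n+1))), fun i hi => ?_⟩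
      by_cases hi' : i ≤ n
      · simp only [s', hi', if_true]; exact ha i hi'
      · have : i = n + 1 := by omega
        subst this
        simp only [s', hi', if_false, sg]
        by_cases hv' : 0 ≤ v (n+1)
        · simp [hv']
        · simp only [hv', decide_false]
          push Not at hv'
          simp; linarith
    · intro q i hi
      exact h1 q i (Finset.mem_range.2 (by omega))
    · intro q r hqr
      by_cases h : q.1 = r.1
      · have h' : q.2 ≠ r.2 := fun h' => hqr (Prod.ext h h')
        have hw0 := hw r.1 0 (Nat.zero_le _)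
        simp only [X', Nat.zero_le, if_true]
        rw [h]
        intro heq
        have h8 : sg q.2 * η / w r.1 0 = sg r.2 * η / w r.1 0 := by linarith
        have h9 : sg q.2 = sg r.2 := by
          field_simp at h8
          exact h8
        have h10 := sg_ne h'
        rw [h9] at h10
        rcases sg_or r.2 with h11 | h11 <;> rw [h11] at h10 <;> norm_num at h10
      · have := h3 q r h
        simpa [X', x] using this
    · intro q r hqr i hi hsi
      by_cases hin : i < n
      · have hi1 : i ≤ n := hin.le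
        have hi2 : i + 1 ≤ n := hin
        simp only [s', hi1, hi2, if_true] at hsi ⊢
        by_cases h : q.1 = r.1
        · have h' : q.2 ≠ r.2 := fun h' => hqr (Prod.ext h h')
          have hwi := hw r.1 i hi1
          have hwi1 := hw r.1 (i+1) hi2
          simp only [w', X', hi1, hi2, if_true, h, hs1]
          have e1 : ∀ (W : ℝ), 0 < W → ∀ (Y k : ℝ),
              W * (1 - sg r.2 * η * k) * (Y + sg q.2 * η / W - 1 * (Y + sg r.2 * η / W))
              = (1 - sg r.2 * η * k) * ((sg q.2 - sg r.2) * η) := by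
            intro W hW Y k
            field_simp
            ring
          rw [e1 _ hwi, e1 _ hwi1]
          push_cast
          rcases Bool.eq_false_or_eq_true q.2 with hq | hq <;>
            rcases Bool.eq_false_or_eq_true r.2 with hr | hr
          · exact absurd (hq.trans hr.symm) h'
          · rw [hq, hr]; simp only [sg]; norm_num; nlinarith [mul_pos hη0 hη0]
          · rw [hq, hr]; simp only [sg]; norm_num; nlinarith [mul_pos hη0 hη0]
          · exact absurd (hq.trans hr.symm) h'
        · exact h4 q r i (Finset.mem_range.2 hin) h hsi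
      · have : i = n := by omega
        subst this
        simp only [s', le_rfl, if_true, Nat.succ_le_iff, lt_irrefl, if_false] at hsi ⊢
        by_cases h : q.1 = r.1
        · have h' : q.2 ≠ r.2 := fun h' => hqr (Prod.ext h h')
          rw [h, hs1, sg_ne h'] at hsi
          norm_num at hsi
        · by_cases h' : q.2 = r.2
          · have e1 : sg q.2 * sg r.2 = 1 := by rw [h']; rcases sg_or r.2 with k | k <;> rw [k] <;> norm_num
            rw [e1] at hsi
            rw [hsi]
            have e2 : s q.1 i = s r.1 i := by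
              rcases hs q.1 i with k | k <;> rcases hs r.1 i with k' | k' <;> rw [k, k'] at hsi ⊢ <;> norm_num at hsi
            simpa using h5 q r h e2
          · rw [sg_ne h'] at hsi
            rw [hsi]
            have := h6 q r
            simpa using this
    · intro q r hqr hsi
      simp only [s', Nat.succ_le_iff, lt_irrefl, if_false] at hsi
      have h' : q.2 = r.2 := by
        by_contra h'
        have := sg_ne h'
        rw [hsi] at this
        rcases sg_or r.2 with k | k <;> rw [k] at this <;> norm_num at this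
      have h : q.1 ≠ r.1 := fun h => hqr (Prod.ext h h')
      have hx := h3 q r h
      have hw0 := h1 r 0 (Finset.mem_range.2 (by omega))
      have hd := h2 r
      have e1 : w' η r (n+1) = w' η r 0 / (1 - 2 * η * x η r) := by
        simp [w']
      have e2 : X' η q (n+1) - X' η r (n+1) = (x η q - x η r) - η * ((x η q)^2 - (x η r)^2) := by
        simp [X']; ring
      have e3 : X' η q 0 - X' η r 0 = x η q - x η r := by
        simp [X', x]
      rw [e1, e2, e3, div_mul_eq_mul_div, div_lt_iff₀ hd]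
      have h9 : 0 < (x η q - x η r) ^ 2 := by
        have : x η q - x η r ≠ 0 := sub_ne_zero.2 hx
        positivity
      have h10 : 0 < w' η r 0 * (η * (x η q - x η r) ^ 2) := by positivity
      nlinarith [h10]

/-- edges of the cyclic chain: `some (i, e)` is the edge `i → i+1` at time `± δ`,
`none` is the edge `n → 0` at time `0`. -/
def src {n : ℕ} : Option (Fin n × Bool) → ℕ
  | none => n
  | some q => q.1
def dst {n : ℕ} : Option (Fin n × Bool) → ℕ
  | none => 0
  | some q => q.1 + 1
def tm {n : ℕ} (δ : ℝ) : Option (Fin n × Bool) → ℝ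
  | none => 0
  | some q => sg q.2 * δ

lemma src_le {n : ℕ} (e : Option (Fin n × Bool)) : src e ≤ n := by
  cases e with
  | none => exact le_rfl
  | some q => exact q.1.2.le

lemma dst_le {n : ℕ} (e : Option (Fin n × Bool)) : dst e ≤ n := by
  cases e with
  | none => exact Nat.zero_le _
  | some q => exact q.1.2

lemma src_ne_dst {n : ℕ} (hn : 0 < n) (e : Option (Fin n × Bool)) : src e ≠ dst e := by
  cases e with
  | none => simp [src, dst]; omega
  | some q => simp [src, dst]

/-- the strict prism condition -/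
def Cond {n : ℕ} {ι : Type} (s X w : ι → ℕ → ℝ) (δ : ℝ) (a : ι) (e : Option (Fin n × Bool))
    (p v : ℕ → ℝ) (t : ℝ) : Prop :=
  0 < s a (src e) * (p (src e) + t * v (src e)
      - s a (src e) * (X a (src e) + tm δ e / w a (src e))) ∧
  s a (dst e) * (p (dst e) + t * v (dst e)
      - s a (dst e) * (X a (dst e) + tm δ e / w a (dst e))) < 0

lemma lemA {n : ℕ} {ι : Type} {s X w : ι → ℕ → ℝ} (hG : Good n ι s X w) (a b : ι) (hab : a ≠ b)
    (e : Option (Fin n × Bool)) :
    ∃ t, Cond s X w 0 a e (fun i => s b i * X b i) (fun i => s b i / w b i) t := by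
  obtain ⟨hs, h0, hc, hw, hX, he, hl⟩ := hG
  have hs1 : ∀ a i, s a i * s a i = 1 := by
    intro a i; rcases hs a i with h | h <;> simp [h]
  have htm : tm 0 e = 0 := by cases e <;> simp [tm]
  -- the key inequality when the relative signs agree
  have key : s a (src e) * s b (src e) = s a (dst e) * s b (dst e) →
      w b (src e) * (X a (src e) - s a (src e) * s b (src e) * X b (src e))
      < w b (dst e) * (X a (dst e) - s a (src e) * s b (src e) * X b (dst e)) := by
    intro h
    cases e with
    | none =>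
      simp only [src, dst, h0, mul_one] at h ⊢
      have e1 : s a n = s b n := by
        rcases hs a n with k | k <;> rcases hs b n with k' | k' <;> rw [k, k'] at h ⊢ <;>
          norm_num at h
      have := hl a b hab e1
      rw [h]; simpa using this
    | some q => exact he a b hab q.1 q.1.2 h
  have hwi := hw b (src e) (src_le e)
  have hwj := hw b (dst e) (dst_le e)
  generalize hi : src e = i at *
  generalize hj : dst e = j at *
  have hk : ∀ t, Cond s X w 0 a e (fun i => s b i * X b i) (fun i => s b i / w b i) t ↔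
      (0 < s a i * s b i * (X b i + t / w b i) - X a i) ∧
      (s a j * s b j * (X b j + t / w b j) - X a j < 0) := by
    intro t
    unfold Cond
    rw [hi, hj, htm]
    have e1 : s a i * (s b i * X b i + t * (s b i / w b i) - s a i * (X a i + 0 / w a i))
        = s a i * s b i * (X b i + t / w b i) - X a i := by
      have := hs1 a i
      linear_combination (-(X a i + 0 / w a i)) * this
    have e2 : s a j * (s b j * X b j + t * (s b j / w b j) - s a j * (X a j + 0 / w a j))
        = s a j * s b j * (X b j + t / w b j) - X a j := by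
      have := hs1 a j
      linear_combination (-(X a j + 0 / w a j)) * this
    simp only [e1, e2]
  simp only [hk]
  have hsi : s a i * s b i = 1 ∨ s a i * s b i = -1 := by
    rcases hs a i with k | k <;> rcases hs b i with k' | k' <;> rw [k, k'] <;> norm_num
  have hsj : s a j * s b j = 1 ∨ s a j * s b j = -1 := by
    rcases hs a j with k | k <;> rcases hs b j with k' | k' <;> rw [k, k'] <;> norm_num
  rcases hsi with h1 | h1 <;> rcases hsj with h2 | h2
  · have := key (h1.trans h2.symm)
    rw [h1] at this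
    simp only [one_mul] at this
    rw [h1, h2]
    obtain ⟨t, ht1, ht2⟩ := exists_between this
    refine ⟨t, ?_, ?_⟩
    · have : X a i - X b i < t / w b i := by rw [lt_div_iff₀ hwi]; linarith
      linarith
    · have : t / w b j < X a j - X b j := by rw [div_lt_iff₀ hwj]; linarith
      linarith
  · rw [h1, h2]
    set M := max (w b i * (X a i - X b i)) (- (w b j * (X a j + X b j))) with hM
    have m1 : w b i * (X a i - X b i) ≤ M := le_max_left _ _
    have m2 : - (w b j * (X a j + X b j)) ≤ M := le_max_right _ _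
    refine ⟨M + 1, ?_, ?_⟩
    · have : X a i - X b i < (M + 1) / w b i := by rw [lt_div_iff₀ hwi]; linarith
      linarith
    · have : -(X a j + X b j) < (M + 1) / w b j := by rw [lt_div_iff₀ hwj]; linarith
      linarith
  · rw [h1, h2]
    set M := min (- (w b i * (X a i + X b i))) (w b j * (X a j - X b j)) with hM
    have m1 : M ≤ - (w b i * (X a i + X b i)) := min_le_left _ _
    have m2 : M ≤ w b j * (X a j - X b j) := min_le_right _ _
    refine ⟨M - 1, ?_, ?_⟩
    · have : (M - 1) / w b i < -(X a i + X b i) := by rw [div_lt_iff₀ hwi]; linarith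
      linarith
    · have : (M - 1) / w b j < X a j - X b j := by rw [div_lt_iff₀ hwj]; linarith
      linarith
  · have := key (h1.trans h2.symm)
    rw [h1] at this
    rw [h1, h2]
    obtain ⟨t, ht1, ht2⟩ := exists_between this
    refine ⟨-t, ?_, ?_⟩
    · have : (-t) / w b i < -(X a i + X b i) := by rw [div_lt_iff₀ hwi]; linarith
      linarith
    · have : -(X a j + X b j) < (-t) / w b j := by rw [lt_div_iff₀ hwj]; linarith
      linarith

lemma lemA' {n : ℕ} {ι : Type} [Fintype ι] {s X w : ι → ℕ → ℝ} (hG : Good n ι s X w) :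
    ∃ δ : ℝ, 0 < δ ∧ ∀ a b, a ≠ b → ∀ e : Option (Fin n × Bool),
      ∃ t, Cond s X w δ a e (fun i => s b i * X b i) (fun i => s b i / w b i) t := by
  have : ∀ᶠ δ in 𝓝[>] (0:ℝ), ∀ a b, ∀ e : Option (Fin n × Bool), a ≠ b →
      ∃ t, Cond s X w δ a e (fun i => s b i * X b i) (fun i => s b i / w b i) t := by
    refine eventually_all.2 fun a => eventually_all.2 fun b => eventually_all.2 fun e => ?_
    by_cases hab : a = b
    · simp [hab]
    obtain ⟨t, ht1, ht2⟩ := lemA hG a b hab e
    have hc : Continuous (fun δ => tm δ e) := by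
      cases e with
      | none => exact continuous_const
      | some q => simp only [tm]; fun_prop
    have e1 := ev_lt (f := fun _ => 0) (g := fun δ => s a (src e) * (s b (src e) * X b (src e)
      + t * (s b (src e) / w b (src e))
      - s a (src e) * (X a (src e) + tm δ e / w a (src e)))) continuousAt_const (by fun_prop) ht1
    have e2 := ev_lt (g := fun _ => 0) (f := fun δ => s a (dst e) * (s b (dst e) * X b (dst e)
      + t * (s b (dst e) / w b (dst e))
      - s a (dst e) * (X a (dst e) + tm δ e / w a (dst e)))) (by fun_prop) continuousAt_const ht2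
    filter_upwards [e1, e2] with δ h1 h2 _
    exact ⟨t, h1, h2⟩
  obtain ⟨δ, h1, h2⟩ := (eventually_mem_nhdsWithin.and this).exists
  exact ⟨δ, h1, fun a b hab e => h2 a b e hab⟩

/-- affine functions violating exactly one constraint -/
lemma exists_pert {n : ℕ} {δ : ℝ} (hδ : 0 < δ) (e0 : Option (Fin n × Bool)) :
    ∃ al be : ℕ → ℝ, ∀ e : Option (Fin n × Bool), e ≠ e0 →
      al (dst e) + be (dst e) * tm δ e < al (src e) + be (src e) * tm δ e := by
  cases e0 with
  | none =>
    refine ⟨fun i => -i, fun _ => 0, fun e he => ?_⟩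
    cases e with
    | none => exact absurd rfl he
    | some q => simp [src, dst]
  | some q0 =>
    obtain ⟨i0, k0⟩ := q0
    refine ⟨fun i => if i ≤ i0 then -i else -i + (n+1), fun i => if i ≤ i0 then 0 else
      sg k0 * 2 * (n+1) / δ, fun e he => ?_⟩
    cases e with
    | none =>
      have h1 : ¬ (n ≤ (i0 : ℕ)) := by have := i0.2; omega
      simp [src, dst, tm, h1]
    | some q =>
      obtain ⟨i, k⟩ := q
      simp only [src, dst, tm]
      rcases lt_trichotomy (i : ℕ) (i0 : ℕ) with h | h | h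
      · have h1 : (i : ℕ) + 1 ≤ i0 := h
        simp [h1, h.le]
      · have hk : k ≠ k0 := by
          rintro rfl
          exact he (by rw [Fin.ext h])
        have h1 : ¬ ((i : ℕ) + 1 ≤ i0) := by omega
        simp only [h1, h.le, if_true, if_false]
        have h2 : sg k0 * 2 * (n+1) / δ * (sg k * δ) = (sg k * sg k0) * (2 * (n+1)) := by
          field_simp
        rw [h2, sg_ne hk]
        push_cast
        have : (0:ℝ) ≤ n := Nat.cast_nonneg n
        linarith
      · have h1 : ¬ ((i : ℕ) ≤ i0) := by omega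
        have h2 : ¬ ((i : ℕ) + 1 ≤ i0) := by omega
        simp only [h1, h2, if_false]
        push_cast
        linarith

lemma lemB {n : ℕ} {ι : Type} [Fintype ι] {s X w : ι → ℕ → ℝ} (hG : Good n ι s X w) {δ : ℝ}
    (hδ : 0 < δ) (hA : ∀ a b, a ≠ b → ∀ e : Option (Fin n × Bool),
      ∃ t, Cond s X w δ a e (fun i => s b i * X b i) (fun i => s b i / w b i) t)
    (k0 : ι × Option (Fin n × Bool)) :
    ∃ p v : ℕ → ℝ, v 0 ≠ 0 ∧ ∀ k : ι × Option (Fin n × Bool), k ≠ k0 →
      ∃ t, Cond s X w δ k.1 k.2 p v t := by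
  obtain ⟨al, be, hy⟩ := exists_pert hδ k0.2
  have hG' := hG
  obtain ⟨hs, h0, hc, hw, hX, he, hl⟩ := hG'
  have hs1 : ∀ a i, s a i * s a i = 1 := by
    intro a i; rcases hs a i with h | h <;> simp [h]
  set b := k0.1 with hb
  let p : ℝ → ℕ → ℝ := fun ζ i => s b i * (X b i + ζ * al i / w b i)
  let v : ℝ → ℕ → ℝ := fun ζ i => s b i * (1 + ζ * be i) / w b i
  have hpc : ∀ i, Continuous (fun ζ => p ζ i) := by intro i; simp only [p]; fun_prop
  have hvc : ∀ i, Continuous (fun ζ => v ζ i) := by intro i; simp only [v]; fun_prop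
  have ev1 : ∀ᶠ ζ in 𝓝[>] (0:ℝ), 0 < v ζ 0 := by
    refine ev_lt (f := fun _ => 0) continuousAt_const (hvc 0).continuousAt ?_
    have := hw b 0 (Nat.zero_le _)
    simp only [v, h0]
    simpa using this
  have ev2 : ∀ᶠ ζ in 𝓝[>] (0:ℝ), ∀ k : ι × Option (Fin n × Bool), k ≠ k0 →
      ∃ t, Cond s X w δ k.1 k.2 (p ζ) (v ζ) t := by
    refine eventually_all.2 fun k => ?_
    by_cases hk : k = k0
    · simp [hk]
    by_cases hkb : k.1 = b
    · have hne : k.2 ≠ k0.2 := fun h => hk (Prod.ext hkb h)
      have hye := hy k.2 hne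
      set e := k.2
      set T := tm δ e with hT
      set c := ((al (src e) + be (src e) * T) + (al (dst e) + be (dst e) * T)) / 2 with hc'
      have c1 : c < al (src e) + be (src e) * T := by rw [hc']; linarith
      have c2 : al (dst e) + be (dst e) * T < c := by rw [hc']; linarith
      have e1 := ev_lt (f := fun _ => 0)
        (g := fun ζ => al (src e) + be (src e) * (T - ζ * c) - c) continuousAt_const
        (by fun_prop) (by simp; linarith)
      have e2 := ev_lt (g := fun _ => 0)
        (f := fun ζ => al (dst e) + be (dst e) * (T - ζ * c) - c)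
        (by fun_prop) continuousAt_const (by simp; linarith)
      filter_upwards [e1, e2, eventually_mem_nhdsWithin] with ζ h1 h2 hζ _
      have hζ0 : 0 < ζ := hζ
      have hwi := hw b (src e) (src_le e)
      have hwj := hw b (dst e) (dst_le e)
      refine ⟨T - ζ * c, ?_, ?_⟩
      · rw [hkb]
        have : s b (src e) * (p ζ (src e) + (T - ζ * c) * v ζ (src e)
            - s b (src e) * (X b (src e) + T / w b (src e)))
            = ζ * (al (src e) + be (src e) * (T - ζ * c) - c) / w b (src e) := by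
          have := hs1 b (src e)
          simp only [p, v]
          rw [eq_div_iff hwi.ne']
          field_simp
          linear_combination (ζ * (al (src e) + be (src e) * (T - ζ * c) - c)) * this
        rw [this]
        positivity
      · rw [hkb]
        have : s b (dst e) * (p ζ (dst e) + (T - ζ * c) * v ζ (dst e)
            - s b (dst e) * (X b (dst e) + T / w b (dst e)))
            = ζ * (al (dst e) + be (dst e) * (T - ζ * c) - c) / w b (dst e) := by
          have := hs1 b (dst e)
          simp only [p, v]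
          rw [eq_div_iff hwj.ne']
          field_simp
          linear_combination (ζ * (al (dst e) + be (dst e) * (T - ζ * c) - c)) * this
        rw [this]
        exact div_neg_of_neg_of_pos (mul_neg_of_pos_of_neg hζ0 h2) hwj
    · obtain ⟨t, ht1, ht2⟩ := hA k.1 b hkb k.2
      have e1 := ev_lt (f := fun _ => 0) (g := fun ζ => s k.1 (src k.2) * (p ζ (src k.2)
        + t * v ζ (src k.2)
        - s k.1 (src k.2) * (X k.1 (src k.2) + tm δ k.2 / w k.1 (src k.2)))) continuousAt_const
        (by have := hpc (src k.2); have := hvc (src k.2); fun_prop) (by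
          simpa [p, v] using ht1)
      have e2 := ev_lt (g := fun _ => 0) (f := fun ζ => s k.1 (dst k.2) * (p ζ (dst k.2)
        + t * v ζ (dst k.2)
        - s k.1 (dst k.2) * (X k.1 (dst k.2) + tm δ k.2 / w k.1 (dst k.2))))
        (by have := hpc (dst k.2); have := hvc (dst k.2); fun_prop) continuousAt_const (by
          simpa [p, v] using ht2)
      filter_upwards [e1, e2] with ζ h1 h2 _
      exact ⟨t, h1, h2⟩
  obtain ⟨ζ, h1, h2⟩ := (ev1.and ev2).exists
  exact ⟨p ζ, v ζ, h1.ne', h2⟩

/-- no line meets all the open prisms -/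
lemma lemD {n : ℕ} {ι : Type} {s X w : ι → ℕ → ℝ} (hG : Good n ι s X w) (δ : ℝ)
    (p v : ℕ → ℝ) (h : ∀ (a : ι) (e : Option (Fin n × Bool)), ∃ t, Cond s X w δ a e p v t) :
    False := by
  obtain ⟨hs, h0, hc, hw, hX, he, hl⟩ := hG
  -- reduce to a line with nonnegative first velocity
  wlog hv : 0 ≤ v 0 generalizing v with H
  · refine H (fun i => - v i) (fun a e => ?_) (by push Not at hv; linarith)
    obtain ⟨t, ht⟩ := h a e
    refine ⟨-t, ?_⟩
    unfold Cond at ht ⊢
    simpa using ht
  obtain ⟨a, ha⟩ := hc v hv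
  -- at time zero
  have hz : ∀ i, i < n → ∃ t, 0 < s a i * (p i + t * v i - s a i * X a i) ∧
      s a (i+1) * (p (i+1) + t * v (i+1) - s a (i+1) * X a (i+1)) < 0 := by
    intro i hi
    obtain ⟨t1, h1, h2⟩ := h a (some (⟨i, hi⟩, true))
    obtain ⟨t2, h3, h4⟩ := h a (some (⟨i, hi⟩, false))
    simp only [src, dst, tm, sg] at h1 h2 h3 h4
    refine ⟨(t1 + t2) / 2, ?_, ?_⟩
    · have : s a i * (p i + (t1 + t2) / 2 * v i - s a i * X a i)
          = (s a i * (p i + t1 * v i - s a i * (X a i + (if true = true then 1 else -1) * δ / w a i))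
            + s a i * (p i + t2 * v i
              - s a i * (X a i + (if false = true then 1 else -1) * δ / w a i))) / 2 := by
        simp; ring
      rw [this]; linarith
    · have : s a (i+1) * (p (i+1) + (t1 + t2) / 2 * v (i+1) - s a (i+1) * X a (i+1))
          = (s a (i+1) * (p (i+1) + t1 * v (i+1)
              - s a (i+1) * (X a (i+1) + (if true = true then 1 else -1) * δ / w a (i+1)))
            + s a (i+1) * (p (i+1) + t2 * v (i+1)
              - s a (i+1) * (X a (i+1) + (if false = true then 1 else -1) * δ / w a (i+1)))) / 2 := by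
        simp; ring
      rw [this]; linarith
  obtain ⟨tn, hn1, hn2⟩ := h a none
  simp only [src, dst, tm, zero_div, add_zero] at hn1 hn2
  choose! t ht1 ht2 using hz
  -- times
  let T : ℕ → ℝ := fun i => if i < n then t i else tn
  have hT1 : ∀ i, i ≤ n → 0 < s a i * (p i + T i * v i - s a i * X a i) := by
    intro i hi
    by_cases h' : i < n
    · simp only [T, h', if_true]; exact ht1 i h'
    · have : i = n := by omega
      subst this
      simp only [T, lt_irrefl, if_false]; exact hn1
  have hT2 : ∀ i, i < n → s a (i+1) * (p (i+1) + T i * v (i+1) - s a (i+1) * X a (i+1)) < 0 := by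
    intro i hi
    simp only [T, hi, if_true]; exact ht2 i hi
  have step : ∀ i, i < n → T i < T (i+1) := by
    intro i hi
    have h1 := hT2 i hi
    have h2 := hT1 (i+1) hi
    have h3 := ha (i+1) hi
    by_contra hcon
    push Not at hcon
    have : 0 ≤ (T i - T (i+1)) * (s a (i+1) * v (i+1)) := mul_nonneg (by linarith) h3
    nlinarith
  have mono : ∀ i, i ≤ n → T 0 ≤ T i := by
    intro i
    induction i with
    | zero => intro _; exact le_rfl
    | succ i ih => intro hi; exact (ih (by omega)).trans (step i (by omega)).le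
  have h1 := mono n le_rfl
  have h2 := hT1 0 (Nat.zero_le _)
  have hTn : T n = tn := by simp [T]
  rw [hTn] at h1
  have h3 := ha 0 (Nat.zero_le _)
  have : 0 ≤ (tn - T 0) * (s a 0 * v 0) := mul_nonneg (by linarith) h3
  nlinarith

/-- centre of the cube attached to the index `k` -/
noncomputable def cen {n : ℕ} {ι : Type} (s X w : ι → ℕ → ℝ) (δ ε r : ℝ)
    (k : ι × Option (Fin n × Bool)) (i : ℕ) : ℝ :=
  if i = src k.2 then s k.1 i * (X k.1 i + tm δ k.2 / w k.1 i) + s k.1 i * (r + ε)
  else if i = dst k.2 then s k.1 i * (X k.1 i + tm δ k.2 / w k.1 i) - s k.1 i * (r + ε)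
  else 0

/-- `IsBox B`: the set `B ⊆ ℝ^d` is a box `∏ [a i, b i]` with `a i < b i`. -/
def IsBox {d : ℕ} (B : Set (Fin d → ℝ)) : Prop :=
  ∃ a b : Fin d → ℝ, (∀ i, a i < b i) ∧ B = {x | ∀ i, a i ≤ x i ∧ x i ≤ b i}

/-- some line `{p + t v}` (`v ≠ 0`) meets every member of `F`. -/
def HasLineTransversal {d : ℕ} (F : Set (Set (Fin d → ℝ))) : Prop :=
  ∃ p v : Fin d → ℝ, v ≠ 0 ∧ ∀ B ∈ F, ∃ t : ℝ, p + t • v ∈ B

/-- property `T(m)`: every subfamily with at most `m` members has a line transversal. -/
def PropT {d : ℕ} (m : ℕ) (F : Set (Set (Fin d → ℝ))) : Prop :=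
  ∀ G : Finset (Set (Fin d → ℝ)), (∀ B ∈ G, B ∈ F) → G.card ≤ m →
    HasLineTransversal (d := d) {B | B ∈ G}

theorem main {n : ℕ} (hn : 0 < n) : ∃ F : Set (Set (Fin (n+1) → ℝ)), F.Finite ∧
    (∀ B ∈ F, IsBox B) ∧ PropT (2 ^ n * (2 * n + 1) - 1) F ∧ ¬ HasLineTransversal F := by
  classical
  obtain ⟨ι, hι, s, X, w, hcard, hG⟩ := exists_good n
  obtain ⟨δ, hδ, hA⟩ := lemA' hG
  have hB := lemB hG hδ hA
  have hs := hG.1
  have hs1 : ∀ a i, s a i * s a i = 1 := by
    intro a i; rcases hs a i with h | h <;> simp [h]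
  choose P V hV hPV using hB
  choose! T hT using hPV
  let K := ι × Option (Fin n × Bool)
  have hK : Fintype.card K = 2 ^ n * (2 * n + 1) := by
    simp only [K, Fintype.card_prod, Fintype.card_option, Fintype.card_fin, Fintype.card_bool, hcard]
    ring
  -- choose the small parameter
  have ev1 : ∀ᶠ ε in 𝓝[>] (0:ℝ), ∀ k0 k : K, k ≠ k0 →
      ε < s k.1 (src k.2) * (P k0 (src k.2) + T k0 k * V k0 (src k.2)
        - s k.1 (src k.2) * (X k.1 (src k.2) + tm δ k.2 / w k.1 (src k.2))) ∧
      s k.1 (dst k.2) * (P k0 (dst k.2) + T k0 k * V k0 (dst k.2)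
        - s k.1 (dst k.2) * (X k.1 (dst k.2) + tm δ k.2 / w k.1 (dst k.2))) < -ε := by
    refine eventually_all.2 fun k0 => eventually_all.2 fun k => ?_
    by_cases hk : k = k0
    · simp [hk]
    obtain ⟨h1, h2⟩ := hT k0 k hk
    have e1 := ev_lt (f := fun ε : ℝ => ε) (g := fun _ => s k.1 (src k.2) * (P k0 (src k.2)
      + T k0 k * V k0 (src k.2)
        - s k.1 (src k.2) * (X k.1 (src k.2) + tm δ k.2 / w k.1 (src k.2)))) (by fun_prop)
        (by fun_prop) h1
    have e2 := ev_lt (g := fun ε : ℝ => -ε) (f := fun _ => s k.1 (dst k.2) * (P k0 (dst k.2)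
      + T k0 k * V k0 (dst k.2)
        - s k.1 (dst k.2) * (X k.1 (dst k.2) + tm δ k.2 / w k.1 (dst k.2)))) (by fun_prop)
        (by fun_prop) (by simpa using h2)
    filter_upwards [e1, e2] with ε h3 h4 _
    exact ⟨h3, h4⟩
  obtain ⟨ε, hε, hε1⟩ := (eventually_mem_nhdsWithin.and ev1).exists
  have hε0 : 0 < ε := hε
  -- choose the large parameter
  have ev2 : ∀ᶠ r in (atTop : Filter ℝ), ∀ k0 k : K, ∀ i ∈ Finset.range (n+1),
      |P k0 i + T k0 k * V k0 i| < r ∧
      |P k0 i + T k0 k * V k0 i - s k.1 i * (X k.1 i + tm δ k.2 / w k.1 i)| < r := by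
    refine eventually_all.2 fun k0 => eventually_all.2 fun k => ?_
    refine (Finset.eventually_all _).2 fun i _ => ?_
    exact (eventually_gt_atTop _).and (eventually_gt_atTop _)
  obtain ⟨r, hr0, hr⟩ := ((eventually_gt_atTop 0).and ev2).exists
  -- the boxes
  let B : K → Set (Fin (n+1) → ℝ) := fun k =>
    {x | ∀ i : Fin (n+1), cen s X w δ ε r k i - r ≤ x i ∧ x i ≤ cen s X w δ ε r k i + r}
  have hline : ∀ k0 k : K, k ≠ k0 →
      ((fun i : Fin (n+1) => P k0 i) + T k0 k • (fun i : Fin (n+1) => V k0 i)) ∈ B k := by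
    intro k0 k hk i
    obtain ⟨h1, h2⟩ := hε1 k0 k hk
    obtain ⟨h3, h4⟩ := hr k0 k i (Finset.mem_range.2 i.2)
    rw [abs_lt] at h3 h4
    simp only [Pi.add_apply, Pi.smul_apply, smul_eq_mul]
    unfold cen
    by_cases c1 : (i : ℕ) = src k.2
    · rw [if_pos c1]
      rw [← c1] at h1
      rcases hs k.1 i with k' | k' <;> rw [k'] at h1 h4 ⊢ <;> constructor <;> linarith
    · rw [if_neg c1]
      by_cases c2 : (i : ℕ) = dst k.2
      · rw [if_pos c2]
        rw [← c2] at h2
        rcases hs k.1 i with k' | k' <;> rw [k'] at h2 h4 ⊢ <;> constructor <;> linarith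
      · rw [if_neg c2]
        constructor <;> linarith
  refine ⟨Set.range B, Set.finite_range B, ?_, ?_, ?_⟩
  · rintro _ ⟨k, rfl⟩
    exact ⟨fun i => cen s X w δ ε r k i - r, fun i => cen s X w δ ε r k i + r,
      fun i => by linarith, rfl⟩
  · intro G hG' hGc
    have hne : Nonempty K := Fintype.card_pos_iff.1 (by rw [hK]; positivity)
    have hpre : ∀ g : Set (Fin (n+1) → ℝ), g ∈ G → ∃ k, B k = g := fun g hg => hG' g hg
    choose! f hf using hpre
    have hlt : (G.image f).card < Fintype.card K := by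
      have h1 : (G.image f).card ≤ G.card := Finset.card_image_le
      have h2 : 0 < 2 ^ n * (2 * n + 1) := by positivity
      rw [hK]; omega
    obtain ⟨k0, hk0⟩ : ∃ k0, k0 ∉ G.image f := by
      by_contra hcon
      push Not at hcon
      have : G.image f = Finset.univ := Finset.eq_univ_iff_forall.2 hcon
      rw [this, Finset.card_univ] at hlt
      exact lt_irrefl _ hlt
    refine ⟨fun i => P k0 i, fun i => V k0 i, ?_, ?_⟩
    · intro h
      have := congrFun h 0
      exact hV k0 (by simpa using this)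
    · intro g hg
      have hg' : g ∈ G := hg
      have hne : f g ≠ k0 := fun h => hk0 (h ▸ Finset.mem_image_of_mem f hg')
      refine ⟨T k0 (f g), ?_⟩
      have := hline k0 (f g) hne
      rw [hf g hg'] at this
      exact this
  · rintro ⟨p, v, _, h⟩
    refine lemD hG δ (fun i => if h : i < n + 1 then p ⟨i, h⟩ else 0)
      (fun i => if h : i < n + 1 then v ⟨i, h⟩ else 0) ?_
    intro a e
    obtain ⟨t, ht⟩ := h (B (a, e)) ⟨_, rfl⟩
    refine ⟨t, ?_, ?_⟩
    · have hlt : src e < n + 1 := Nat.lt_succ_of_le (src_le e)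
      have := ht ⟨src e, hlt⟩
      simp only [hlt, dite_true]
      unfold cen at this
      simp only [Pi.add_apply, Pi.smul_apply, smul_eq_mul, if_true] at this
      rcases hs a (src e) with k' | k' <;> rw [k'] at this ⊢ <;> linarith [this.1, this.2]
    · have hlt : dst e < n + 1 := Nat.lt_succ_of_le (dst_le e)
      have := ht ⟨dst e, hlt⟩
      simp only [hlt, dite_true]
      unfold cen at this
      have hne : dst e ≠ src e := (src_ne_dst hn e).symm
      simp only [Pi.add_apply, Pi.smul_apply, smul_eq_mul, if_true, if_neg hne] at this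
      rcases hs a (dst e) with k' | k' <;> rw [k'] at this ⊢ <;> linarith [this.1, this.2]

lemma sg_sq (e : Bool) : sg e * sg e = 1 := by cases e <;> simp [sg]

/-- the line `p + t v` passes through the box `[a,b]` enlarged by `ε`. -/
def Hit {m : ℕ} (a b p v : Fin m → ℝ) (ε : ℝ) : Prop :=
  ∃ t : ℝ, ∀ i, a i - ε ≤ p i + t * v i ∧ p i + t * v i ≤ b i + ε

/-- perturb a transversal to one with no vanishing velocity -/
lemma pert {m : ℕ} {κ : Type*} (J : Finset κ) (a b : κ → Fin m → ℝ) (p v : Fin m → ℝ)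
    (h : ∀ k ∈ J, Hit (a k) (b k) p v 0) {ε : ℝ} (hε : 0 < ε) :
    ∃ v' : Fin m → ℝ, (∀ i, v' i ≠ 0) ∧ ∀ k ∈ J, Hit (a k) (b k) p v' ε := by
  classical
  choose! t ht using h
  let c : Fin m → ℝ := fun i => if 0 ≤ v i then 1 else -1
  have ev : ∀ᶠ η in 𝓝[>] (0:ℝ), ∀ k ∈ J, ∀ i, a k i - ε < p i + t k * (v i + η * c i) ∧
      p i + t k * (v i + η * c i) < b k i + ε := by
    refine (Finset.eventually_all _).2 fun k hk => eventually_all.2 fun i => ?_
    have h1 := (ht k hk i).1
    have h2 := (ht k hk i).2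
    have e1 : ∀ᶠ η in 𝓝 (0:ℝ), a k i - ε < p i + t k * (v i + η * c i) := by
      refine (continuousAt_const (y := a k i - ε)).eventually_lt
        (g := fun η : ℝ => p i + t k * (v i + η * c i)) (by fun_prop) ?_
      simp; linarith
    have e2 : ∀ᶠ η in 𝓝 (0:ℝ), p i + t k * (v i + η * c i) < b k i + ε := by
      refine ContinuousAt.eventually_lt
        (f := fun η : ℝ => p i + t k * (v i + η * c i)) (by fun_prop)
        (continuousAt_const (y := b k i + ε)) ?_
      simp; linarith
    exact ((e1.and e2).filter_mono nhdsWithin_le_nhds)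
  obtain ⟨η, hη, h1⟩ := (eventually_mem_nhdsWithin.and ev).exists
  have hη0 : 0 < η := hη
  refine ⟨fun i => v i + η * c i, fun i => ?_, fun k hk => ⟨t k, fun i => ?_⟩⟩
  · by_cases hv : 0 ≤ v i
    · simp only [c, hv, if_true]; positivity
    · simp only [c, hv, if_false]
      push Not at hv
      intro h; linarith
  · exact ⟨(h1 k hk i).1.le, (h1 k hk i).2.le⟩

/-- the convex set of parameters of lines of class `τ` meeting an enlarged box -/
def Par {n : ℕ} (a b : Fin (n+1) → ℝ) (τ : Fin n → Bool) (ε : ℝ) :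
    Set ((Fin n → ℝ) × (Fin n → ℝ)) :=
  {z | (∀ i, 0 < z.1 i) ∧ ∃ s : ℝ, (a 0 - ε ≤ s ∧ s ≤ b 0 + ε) ∧
    ∀ i : Fin n, (a i.succ - ε) * z.1 i ≤ sg (τ i) * (s + z.2 i) ∧
      sg (τ i) * (s + z.2 i) ≤ (b i.succ + ε) * z.1 i}

lemma par_convex {n : ℕ} (a b : Fin (n+1) → ℝ) (τ : Fin n → Bool) (ε : ℝ) :
    Convex ℝ (Par a b τ ε) := by
  rintro ⟨w, q⟩ ⟨hw, s, ⟨h1, h2⟩, h3⟩ ⟨w', q'⟩ ⟨hw', s', ⟨h1', h2'⟩, h3'⟩ α β hα hβ hαβ
  refine ⟨fun i => ?_, α * s + β * s', ⟨?_, ?_⟩, fun i => ⟨?_, ?_⟩⟩
  · have k1 := hw i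
    have k2 := hw' i
    simp only [Prod.smul_mk, Prod.mk_add_mk, Pi.add_apply, Pi.smul_apply, smul_eq_mul] at k1 k2 ⊢
    rcases eq_or_lt_of_le hα with h | h
    · have : β = 1 := by linarith
      subst this; rw [← h]; linarith
    · nlinarith [mul_pos h k1, mul_nonneg hβ k2.le]
  · have : α * (a 0 - ε) + β * (a 0 - ε) = a 0 - ε := by rw [← add_mul, hαβ, one_mul]
    nlinarith [mul_le_mul_of_nonneg_left h1 hα, mul_le_mul_of_nonneg_left h1' hβ]
  · have : α * (b 0 + ε) + β * (b 0 + ε) = b 0 + ε := by rw [← add_mul, hαβ, one_mul]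
    nlinarith [mul_le_mul_of_nonneg_left h2 hα, mul_le_mul_of_nonneg_left h2' hβ]
  · have k1 := mul_le_mul_of_nonneg_left (h3 i).1 hα
    have k2 := mul_le_mul_of_nonneg_left (h3' i).1 hβ
    simp only [Prod.smul_mk, Prod.mk_add_mk, Pi.add_apply, Pi.smul_apply, smul_eq_mul] at k1 k2 ⊢
    linarith
  · have k1 := mul_le_mul_of_nonneg_left (h3 i).2 hα
    have k2 := mul_le_mul_of_nonneg_left (h3' i).2 hβ
    simp only [Prod.smul_mk, Prod.mk_add_mk, Pi.add_apply, Pi.smul_apply, smul_eq_mul] at k1 k2 ⊢
    linarith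

/-- from a line with positive first velocity and no vanishing velocity to parameters -/
lemma hit_to_par {n : ℕ} {κ : Type*} (J : Finset κ) (a b : κ → Fin (n+1) → ℝ)
    (p v : Fin (n+1) → ℝ) (hv : ∀ i, v i ≠ 0) (hv0 : 0 < v 0) {ε : ℝ}
    (h : ∀ k ∈ J, Hit (a k) (b k) p v ε) :
    ∃ τ : Fin n → Bool, ∃ z, ∀ k ∈ J, z ∈ Par (a k) (b k) τ ε := by
  classical
  let τ : Fin n → Bool := fun i => decide (0 < v i.succ)
  have hτ : ∀ i : Fin n, 0 < sg (τ i) * v i.succ := by
    intro i
    rcases lt_or_gt_of_ne (hv i.succ) with h' | h'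
    · have : ¬ (0 < v i.succ) := by linarith
      simp only [τ, this, decide_false, sg]; simp; linarith
    · simp only [τ, h', decide_true, sg]; simp; linarith
  refine ⟨τ, (fun i => v 0 / (sg (τ i) * v i.succ), fun i => p i.succ * v 0 / v i.succ - p 0),
    fun k hk => ?_⟩
  obtain ⟨t, ht⟩ := h k hk
  refine ⟨fun i => div_pos hv0 (hτ i), p 0 + t * v 0, ht 0, fun i => ?_⟩
  have e1 : sg (τ i) * (p 0 + t * v 0 + (p i.succ * v 0 / v i.succ - p 0))
      = (p i.succ + t * v i.succ) * (v 0 / (sg (τ i) * v i.succ)) := by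
    have h1 := hv i.succ
    have h2 : sg (τ i) ≠ 0 := by intro h; have := hτ i; rw [h] at this; simp at this
    field_simp
    have := sg_sq (τ i)
    linear_combination (v 0 * (p i.succ + t * v i.succ)) * this
  have h2 := div_pos hv0 (hτ i)
  simp only
  rw [e1]
  exact ⟨mul_le_mul_of_nonneg_right (ht i.succ).1 h2.le,
    mul_le_mul_of_nonneg_right (ht i.succ).2 h2.le⟩

/-- from parameters to a line -/
lemma par_to_hit {n : ℕ} {κ : Type*} (a b : κ → Fin (n+1) → ℝ) {ε : ℝ}
    (τ : Fin n → Bool) (z : (Fin n → ℝ) × (Fin n → ℝ)) (h : ∀ k, z ∈ Par (a k) (b k) τ ε) :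
    ∃ p v : Fin (n+1) → ℝ, v 0 = 1 ∧ ∀ k, Hit (a k) (b k) p v ε := by
  refine ⟨Fin.cons 0 (fun i => sg (τ i) * z.2 i / z.1 i), Fin.cons 1 (fun i => sg (τ i) / z.1 i),
    rfl, fun k => ?_⟩
  obtain ⟨hw, s, hs, h3⟩ := h k
  refine ⟨s, fun i => ?_⟩
  refine Fin.cases ?_ (fun i => ?_) i
  · simpa using hs
  · simp only [Fin.cons_succ]
    have hwi := hw i
    have e1 : sg (τ i) * z.2 i / z.1 i + s * (sg (τ i) / z.1 i) = sg (τ i) * (s + z.2 i) / z.1 i := by
      field_simp; ring
    rw [e1, le_div_iff₀ hwi, div_le_iff₀ hwi]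
    exact h3 i

/-- every enlarged family has a transversal -/
lemma enlarged {n : ℕ} {κ : Type*} [Fintype κ] (a b : κ → Fin (n+1) → ℝ)
    (hT : ∀ J : Finset κ, J.card ≤ 2 ^ n * (2 * n + 1) → ∃ p v : Fin (n+1) → ℝ, v ≠ 0 ∧
      ∀ k ∈ J, Hit (a k) (b k) p v 0) {ε : ℝ} (hε : 0 < ε) :
    ∃ p v : Fin (n+1) → ℝ, v 0 = 1 ∧ ∀ k, Hit (a k) (b k) p v ε := by
  classical
  -- some class works for all small subfamilies
  have key : ∃ τ : Fin n → Bool, ∀ J : Finset κ, J.card ≤ 2 * n + 1 →
      (⋂ k ∈ J, Par (a k) (b k) τ ε).Nonempty := by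
    by_contra hcon
    push Not at hcon
    choose J hJ1 hJ2 using hcon
    let U : Finset κ := Finset.univ.biUnion J
    have hU : U.card ≤ 2 ^ n * (2 * n + 1) := by
      calc U.card ≤ ∑ τ : Fin n → Bool, (J τ).card := Finset.card_biUnion_le
        _ ≤ ∑ _τ : Fin n → Bool, (2 * n + 1) := Finset.sum_le_sum fun τ _ => hJ1 τ
        _ = 2 ^ n * (2 * n + 1) := by simp
    obtain ⟨p, v, hv, h⟩ := hT U hU
    obtain ⟨v', hv', h'⟩ := pert U a b p v h hε
    have h2 : ∃ τ : Fin n → Bool, ∃ z, ∀ k ∈ U, z ∈ Par (a k) (b k) τ ε := by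
      rcases lt_or_gt_of_ne (hv' 0) with h0 | h0
      · refine hit_to_par U a b p (fun i => - v' i) (fun i => neg_ne_zero.2 (hv' i))
          (by simpa using h0) (fun k hk => ?_)
        obtain ⟨t, ht⟩ := h' k hk
        exact ⟨-t, fun i => by simpa using ht i⟩
      · exact hit_to_par U a b p v' hv' h0 h'
    obtain ⟨τ, z, hz⟩ := h2
    have : z ∈ ⋂ k ∈ J τ, Par (a k) (b k) τ ε := by
      simp only [Set.mem_iInter]
      intro k hk
      exact hz k (Finset.mem_biUnion.2 ⟨τ, Finset.mem_univ _, hk⟩)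
    rw [hJ2 τ] at this
    exact this
  obtain ⟨τ, hτ⟩ := key
  have hfin : Module.finrank ℝ ((Fin n → ℝ) × (Fin n → ℝ)) = 2 * n := by
    rw [Module.finrank_prod, Module.finrank_fin_fun]; ring
  have := Convex.helly_theorem' (𝕜 := ℝ) (F := fun k => Par (a k) (b k) τ ε)
    (s := (Finset.univ : Finset κ)) (fun k _ => par_convex _ _ _ _)
    (fun J _ hJ => hτ J (by rw [hfin] at hJ; exact hJ))
  obtain ⟨z, hz⟩ := this
  simp only [Finset.mem_univ, Set.iInter_true, Set.mem_iInter] at hz
  exact par_to_hit a b τ z hz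


/-- Santalo's theorem for indexed families, by compactness -/
lemma santalo {n : ℕ} {κ : Type*} [Fintype κ] (a b : κ → Fin (n+1) → ℝ)
    (hT : ∀ J : Finset κ, J.card ≤ 2 ^ n * (2 * n + 1) → ∃ p v : Fin (n+1) → ℝ, v ≠ 0 ∧
      ∀ k ∈ J, Hit (a k) (b k) p v 0) :
    ∃ p v : Fin (n+1) → ℝ, v ≠ 0 ∧ ∀ k, Hit (a k) (b k) p v 0 := by
  classical
  rcases isEmpty_or_nonempty κ with hκ | ⟨⟨k0⟩⟩
  · obtain ⟨p, v, hv, _⟩ := hT ∅ (by simp)
    exact ⟨p, v, hv, fun k => hκ.elim k⟩
  -- a bound for all the points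
  obtain ⟨M, hM⟩ : ∃ M : ℝ, ∀ k, ∀ x : Fin (n+1) → ℝ,
      (∀ i, a k i - 1 ≤ x i ∧ x i ≤ b k i + 1) → ‖x‖ ≤ M := by
    have hb : Bornology.IsBounded (⋃ k, Set.Icc (fun i => a k i - 1) (fun i => b k i + 1)) :=
      Bornology.isBounded_iUnion.2 fun k => (isCompact_Icc).isBounded
    obtain ⟨M, hM⟩ := hb.exists_norm_le
    exact ⟨M, fun k x hx => hM x (Set.mem_iUnion.2 ⟨k, fun i => (hx i).1, fun i => (hx i).2⟩)⟩
  let C : Set ((Fin (n+1) → ℝ) × (Fin (n+1) → ℝ) × (κ → ℝ)) :=
    (Metric.closedBall 0 M) ×ˢ ((Metric.sphere 0 1) ×ˢ (Metric.closedBall 0 (2 * M)))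
  have hC : IsCompact C := (isCompact_closedBall _ _).prod
    ((isCompact_sphere _ _).prod (isCompact_closedBall _ _))
  have hz : ∀ m : ℕ, ∃ z ∈ C, ∀ k i, a k i - 1 / ((m : ℝ) + 1) ≤ z.1 i + z.2.2 k * z.2.1 i ∧
      z.1 i + z.2.2 k * z.2.1 i ≤ b k i + 1 / ((m : ℝ) + 1) := by
    intro m
    have hε : (0:ℝ) < 1 / ((m : ℝ) + 1) := by positivity
    have hε1 : 1 / ((m : ℝ) + 1) ≤ 1 := by
      rw [div_le_one (by positivity)]
      have : (0:ℝ) ≤ m := Nat.cast_nonneg m
      linarith
    obtain ⟨p, v, hv, h⟩ := enlarged a b hT hε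
    choose t ht using h
    have hvn : 0 < ‖v‖ := by
      rw [norm_pos_iff]
      intro h0
      rw [h0] at hv
      simp at hv
    have hx : ∀ k, ‖p + t k • v‖ ≤ M := by
      intro k
      refine hM k _ fun i => ?_
      have := ht k i
      simp only [Pi.add_apply, Pi.smul_apply, smul_eq_mul]
      exact ⟨by linarith [this.1], by linarith [this.2]⟩
    refine ⟨(p + t k0 • v, ‖v‖⁻¹ • v, fun k => (t k - t k0) * ‖v‖), ⟨?_, ?_, ?_⟩, fun k i => ?_⟩
    · simpa using hx k0
    · simp [norm_smul, hvn.ne']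
    · have hM0 : 0 ≤ M := (norm_nonneg _).trans (hx k0)
      rw [mem_closedBall_zero_iff, pi_norm_le_iff_of_nonneg (by linarith)]
      intro k
      have e1 : ‖(t k - t k0) * ‖v‖‖ = ‖(p + t k • v) - (p + t k0 • v)‖ := by
        have : (p + t k • v) - (p + t k0 • v) = (t k - t k0) • v := by
          rw [sub_smul]; abel
        rw [this, norm_smul, norm_mul, norm_norm]
      rw [e1]
      calc ‖(p + t k • v) - (p + t k0 • v)‖ ≤ ‖p + t k • v‖ + ‖p + t k0 • v‖ := norm_sub_le _ _
        _ ≤ 2 * M := by linarith [hx k, hx k0]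
    · have e2 : (p + t k0 • v) i + (t k - t k0) * ‖v‖ * (‖v‖⁻¹ • v) i = p i + t k * v i := by
        simp only [Pi.add_apply, Pi.smul_apply, smul_eq_mul]
        field_simp
        ring
      simp only
      rw [e2]
      exact ht k i
  choose z hzC hz using hz
  obtain ⟨y, hyC, φ, hφ, hlim⟩ := hC.tendsto_subseq hzC
  have hε : Tendsto (fun m : ℕ => 1 / ((φ m : ℝ) + 1)) atTop (𝓝 0) :=
    tendsto_one_div_add_atTop_nhds_zero_nat.comp hφ.tendsto_atTop
  have hyv : y.2.1 ≠ 0 := by
    have : y.2.1 ∈ Metric.sphere (0 : Fin (n+1) → ℝ) 1 := hyC.2.1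
    intro h0
    rw [h0] at this
    simp at this
  refine ⟨y.1, y.2.1, hyv, fun k => ⟨y.2.2 k, fun i => ?_⟩⟩
  have hf : Continuous (fun q : (Fin (n+1) → ℝ) × (Fin (n+1) → ℝ) × (κ → ℝ) =>
      q.1 i + q.2.2 k * q.2.1 i) := by fun_prop
  have hlim2 := (hf.tendsto y).comp hlim
  constructor
  · have h1 : Tendsto (fun m : ℕ => a k i - 1 / ((φ m : ℝ) + 1)) atTop (𝓝 (a k i - 0)) :=
      tendsto_const_nhds.sub hε
    exact le_of_tendsto_of_tendsto' h1 hlim2 fun m => (hz (φ m) k i).1
  · have h1 : Tendsto (fun m : ℕ => b k i + 1 / ((φ m : ℝ) + 1)) atTop (𝓝 (b k i + 0)) :=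
      tendsto_const_nhds.add hε
    exact le_of_tendsto_of_tendsto' hlim2 h1 fun m => (hz (φ m) k i).2

/-- the defining property of the Helly numbers: for every finite family of boxes, if every
subfamily with at most `h` members has a line transversal, then so has the whole family. -/
def HellyProp (d h : ℕ) : Prop :=
  ∀ F : Set (Set (Fin d → ℝ)), F.Finite → (∀ B ∈ F, IsBox B) → PropT h F →
    HasLineTransversal F

lemma upper {n : ℕ} : HellyProp (n + 1) (2 ^ n * (2 * n + 1)) := by
  classical
  intro F hF hbox hT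
  have : Fintype F := hF.fintype
  have hab : ∀ k : F, ∃ a b : Fin (n+1) → ℝ, (k : Set (Fin (n+1) → ℝ)) =
      {x | ∀ i, a i ≤ x i ∧ x i ≤ b i} := by
    intro k
    obtain ⟨a, b, _, h⟩ := hbox k k.2
    exact ⟨a, b, h⟩
  choose a b hab using hab
  obtain ⟨p, v, hv, h⟩ := santalo a b (fun J hJ => by
    obtain ⟨p, v, hv, h⟩ := hT (J.image Subtype.val)
      (fun B hB => by
        obtain ⟨k, _, rfl⟩ := Finset.mem_image.1 hB
        exact k.2) (Finset.card_image_le.trans hJ)
    refine ⟨p, v, hv, fun k hk => ?_⟩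
    obtain ⟨t, ht⟩ := h k (Finset.mem_image_of_mem _ hk)
    rw [hab k] at ht
    exact ⟨t, fun i => by simpa using ht i⟩)
  refine ⟨p, v, hv, fun B hB => ?_⟩
  obtain ⟨t, ht⟩ := h ⟨B, hB⟩
  refine ⟨t, ?_⟩
  have := hab ⟨B, hB⟩
  simp only at this
  rw [this]
  intro i
  simpa using ht i

/-- `h_L(d) = 2^(d-1) (2d-1)` for every `d ≥ 3`. -/
theorem result : ∀ d : ℕ, 3 ≤ d → IsLeast {h : ℕ | HellyProp d h} (2 ^ (d - 1) * (2 * d - 1)) := by
  intro d hd
  obtain ⟨n, rfl⟩ : ∃ n, d = n + 1 := ⟨d - 1, by omega⟩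
  have e : 2 * (n + 1) - 1 = 2 * n + 1 := by omega
  have e' : n + 1 - 1 = n := by omega
  rw [e, e']
  refine ⟨upper, ?_⟩
  intro h hh
  by_contra hcon
  push Not at hcon
  obtain ⟨F, hF, hbox, hT, hno⟩ := main (n := n) (by omega)
  refine hno (hh F hF hbox ?_)
  intro G hG hGc
  exact hT G hG (by omega)

end Pool.Agent.Results.MP_5f7e36_co.BoxLineHelly
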